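import Pool.Agent.X236.SC.Count
import Pool.Agent.H510R2.Div

/-!
# The bounds
-/

set_option autoImplicit false

namespace Pool.Agent.X236.SC

open Finset

lemma log_le_pow (ε : ℝ) (hε : 0 < ε) : ∃ C : ℝ, 0 < C ∧ ∀ N : ℕ, 1 ≤ N →
    1 + Real.log N ≤ C * (N : ℝ) ^ ε := by
  refine ⟨1 + 1 / ε, by positivity, fun N hN => ?_⟩
  have h1 : (1 : ℝ) ≤ (N : ℝ) := by exact_mod_cast hN
  have h2 : Real.log N ≤ (N : ℝ) ^ ε / ε := Real.log_le_rpow_div (by positivity) hε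
  have h3 : (1 : ℝ) ≤ (N : ℝ) ^ ε := Real.one_le_rpow h1 hε.le
  have : (1 + 1 / ε) * (N : ℝ) ^ ε = (N : ℝ) ^ ε + (N : ℝ) ^ ε / ε := by ring
  rw [this]
  linarith

lemma harm (Z : ℕ) : (∑ z ∈ Icc 1 Z, (1 : ℝ) / z) ≤ 1 + Real.log Z := by
  have h := harmonic_le_one_add_log Z
  rw [harmonic_eq_sum_Icc] at h
  push_cast at h
  simpa [one_div] using h

lemma log2_le (N : ℕ) (hN : 1 ≤ N) (n : ℕ) (hn : n ≤ 2 * N ^ 4) :
    ((Nat.log 2 n + 1 : ℕ) : ℝ) ≤ 6 * (1 + Real.log N) := by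
  have hN' : (1 : ℝ) ≤ N := by exact_mod_cast hN
  have h0 : 0 ≤ Real.log N := Real.log_nonneg hN'
  have h1 : Nat.log 2 n ≤ Nat.log 2 (2 * N ^ 4) := Nat.log_mono_right hn
  have h2 : ((Nat.log 2 (2 * N ^ 4) : ℕ) : ℝ) ≤ 1 + 6 * Real.log N := by
    have h3 : (2 : ℕ) ^ Nat.log 2 (2 * N ^ 4) ≤ 2 * N ^ 4 := Nat.pow_log_le_self 2 (by positivity)
    have h4 : (2 : ℝ) ^ Nat.log 2 (2 * N ^ 4) ≤ 2 * (N : ℝ) ^ 4 := by exact_mod_cast h3
    have h5 := Real.log_le_log (by positivity) h4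
    rw [Real.log_pow, Real.log_mul (by norm_num) (by positivity), Real.log_pow] at h5
    push_cast at h5
    have h6 := Real.log_two_gt_d9
    have h7 := Real.log_two_lt_d9
    have h8 : ((Nat.log 2 (2 * N ^ 4) : ℕ) : ℝ) * Real.log 2 ≤ (1 + 6 * Real.log N) * Real.log 2 := by
      nlinarith
    exact le_of_mul_le_mul_right h8 (by linarith)
  have h9 : ((Nat.log 2 n : ℕ) : ℝ) ≤ Nat.log 2 (2 * N ^ 4) := by exact_mod_cast h1
  push_cast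
  linarith

open Classical in
theorem bound_Sm (ε : ℝ) (hε : 0 < ε) : ∃ C : ℝ, 0 < C ∧ ∀ N M Z : ℕ, 1 ≤ N → M ≤ N → Z ≤ N →
    (((Icc 1 M).filter (fun A => Sm M Z A)).card : ℝ) ≤
      C * (N : ℝ) ^ ε * (Z + (M : ℝ) ^ (2 / 3 : ℝ)) := by
  obtain ⟨C1, hC1, h1⟩ := Pool.Agent.H510R2.divisor_bound (ε / 4) (by positivity)
  obtain ⟨C2, hC2, h2⟩ := log_le_pow (ε / 4) (by positivity)
  refine ⟨C1 ^ 2 * (6 * C2) * (7 * C2), by positivity, fun N M Z hN hM hZ => ?_⟩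
  have hN' : (1 : ℝ) ≤ N := by exact_mod_cast hN
  have hN0 : (0 : ℝ) < N := by linarith
  have hL := h2 N hN
  have hL0 : 0 ≤ Real.log N := Real.log_nonneg hN'
  have hlog : ((Nat.log 2 (2 * M * Z ^ 3) + 1 : ℕ) : ℝ) ≤ 6 * (C2 * (N : ℝ) ^ (ε / 4)) := by
    refine (log2_le N hN _ ?_).trans (by linarith)
    calc 2 * M * Z ^ 3 ≤ 2 * N * N ^ 3 := by gcongr
      _ = 2 * N ^ 4 := by ring
  have hR : ∀ z ∈ Icc 1 Z, ((R (z ^ 3)).card : ℝ) ≤ C1 ^ 2 * ((N : ℝ) ^ (ε / 4)) ^ 2 := by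
    intro z hz
    rw [mem_Icc] at hz
    have h3 : ((R (z ^ 3)).card : ℝ) ≤ (z.divisors.card : ℝ) ^ 2 := by exact_mod_cast R_cube z
    refine h3.trans ?_
    rw [← mul_pow]
    refine pow_le_pow_left₀ (by positivity) ((h1 z hz.1).trans ?_) 2
    refine mul_le_mul_of_nonneg_left ?_ hC1.le
    refine Real.rpow_le_rpow (by positivity) ?_ (by positivity)
    exact_mod_cast hz.2.trans hZ
  have hK : ∀ z ∈ Icc 1 Z, ((K M z + 1 : ℕ) : ℝ) ≤ 1 + 7 * (M : ℝ) ^ (2 / 3 : ℝ) * (1 / z) := by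
    intro z hz
    push_cast
    have : (K M z : ℝ) ≤ 7 * (M : ℝ) ^ (2 / 3 : ℝ) / z := Nat.floor_le (by positivity)
    have e : 7 * (M : ℝ) ^ (2 / 3 : ℝ) * (1 / z) = 7 * (M : ℝ) ^ (2 / 3 : ℝ) / z := by ring
    rw [e]
    linarith
  have hmain : (((Icc 1 M).filter (fun A => Sm M Z A)).card : ℝ) ≤
      ∑ z ∈ Icc 1 Z, (C1 ^ 2 * ((N : ℝ) ^ (ε / 4)) ^ 2) * (6 * (C2 * (N : ℝ) ^ (ε / 4)) *
        (1 + 7 * (M : ℝ) ^ (2 / 3 : ℝ) * (1 / z))) := by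
    have h3 : (((Icc 1 M).filter (fun A => Sm M Z A)).card : ℝ) ≤
        ((∑ z ∈ Icc 1 Z, (R (z ^ 3)).card * ((Nat.log 2 (2 * M * Z ^ 3) + 1) * (K M z + 1)) : ℕ) : ℝ) := by
      exact_mod_cast card_Sm M Z
    refine h3.trans ?_
    rw [Nat.cast_sum]
    refine sum_le_sum fun z hz => ?_
    rw [Nat.cast_mul, Nat.cast_mul]
    refine mul_le_mul (hR z hz) ?_ (by positivity) (by positivity)
    exact mul_le_mul hlog (hK z hz) (by positivity) (by positivity)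
  refine hmain.trans ?_
  have hsum : (∑ z ∈ Icc 1 Z, (1 + 7 * (M : ℝ) ^ (2 / 3 : ℝ) * (1 / (z : ℝ)))) ≤
      7 * (C2 * (N : ℝ) ^ (ε / 4)) * (Z + (M : ℝ) ^ (2 / 3 : ℝ)) := by
    rw [sum_add_distrib, ← mul_sum]
    have h4 : (∑ z ∈ Icc 1 Z, (1 : ℝ) / z) ≤ C2 * (N : ℝ) ^ (ε / 4) := by
      rcases Nat.eq_zero_or_pos Z with h0 | h0
      · subst h0
        simp
        positivity
      · refine (harm Z).trans (le_trans ?_ hL)
        have : Real.log Z ≤ Real.log N := Real.log_le_log (by exact_mod_cast h0) (by exact_mod_cast hZ)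
        linarith
    have h5 : (1 : ℝ) ≤ C2 * (N : ℝ) ^ (ε / 4) := by linarith
    have h6 : (∑ _z ∈ Icc 1 Z, (1 : ℝ)) = Z := by simp
    rw [h6]
    have h7 : 0 ≤ (M : ℝ) ^ (2 / 3 : ℝ) := by positivity
    have h8 : (Z : ℝ) ≤ 7 * (C2 * (N : ℝ) ^ (ε / 4)) * Z := by
      have : (0 : ℝ) ≤ Z := by positivity
      nlinarith
    have h9 := mul_le_mul_of_nonneg_left h4 (by positivity : 0 ≤ 7 * (M : ℝ) ^ (2 / 3 : ℝ))
    nlinarith
  have e1 : (∑ z ∈ Icc 1 Z, (C1 ^ 2 * ((N : ℝ) ^ (ε / 4)) ^ 2) * (6 * (C2 * (N : ℝ) ^ (ε / 4)) *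
        (1 + 7 * (M : ℝ) ^ (2 / 3 : ℝ) * (1 / (z : ℝ))))) =
      (C1 ^ 2 * ((N : ℝ) ^ (ε / 4)) ^ 2) * (6 * (C2 * (N : ℝ) ^ (ε / 4))) *
        ∑ z ∈ Icc 1 Z, (1 + 7 * (M : ℝ) ^ (2 / 3 : ℝ) * (1 / (z : ℝ))) := by
    rw [mul_sum]
    refine sum_congr rfl fun z _ => by ring
  rw [e1]
  refine (mul_le_mul_of_nonneg_left hsum (by positivity)).trans (le_of_eq ?_)
  have e2 : ((N : ℝ) ^ (ε / 4)) ^ 4 = (N : ℝ) ^ ε := by
    rw [← Real.rpow_natCast, ← Real.rpow_mul hN0.le]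
    congr 1
    push_cast
    ring
  rw [← e2]
  ring

/-- `A` has a rational point of denominator at most `Z` -/
def Bad (Z A : ℕ) : Prop := ∃ X Y : ℚ, X ^ 3 + Y ^ 3 = (A : ℚ) ∧ X.den ≤ Z

lemma dens {A : ℕ} {X Y : ℚ} (h : X ^ 3 + Y ^ 3 = (A : ℚ)) : Y.den = X.den := by
  have e : Y ^ 3 = (A : ℤ) - X ^ 3 := by push_cast; linear_combination h
  have h2 : (Y ^ 3).den = (X ^ 3).den := by
    rw [e]
    rw [Rat.intCast_sub_den] 
  rw [Rat.den_pow, Rat.den_pow] at h2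
  exact Nat.pow_left_injective (by norm_num : 3 ≠ 0) h2


lemma eqn {A : ℕ} {X Y : ℚ} (h : X ^ 3 + Y ^ 3 = (A : ℚ)) :
    X.num ^ 3 + Y.num ^ 3 = (A : ℤ) * (X.den : ℤ) ^ 3 := by
  have h1 := dens h
  have hd : (X.den : ℚ) ≠ 0 := by exact_mod_cast X.den_ne_zero
  have e1 : X = X.num / X.den := (Rat.num_div_den X).symm
  have e2 : Y = Y.num / X.den := by rw [← h1]; exact (Rat.num_div_den Y).symm
  have h2 : ((X.num : ℚ) / X.den) ^ 3 + ((Y.num : ℚ) / X.den) ^ 3 = A := by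
    rw [← e1, ← e2]; exact h
  rw [div_pow, div_pow, ← add_div, div_eq_iff (pow_ne_zero 3 hd)] at h2
  exact_mod_cast h2

open Classical in
lemma bad_sub (N Z : ℕ) : (Icc 1 N).filter (fun A => Bad Z A) ⊆
    (Icc 1 N).biUnion fun g => ((Icc 1 (N / g ^ 3)).filter (fun B => Sm (N / g ^ 3) Z B)).image
      fun B => g ^ 3 * B := by
  intro A hA
  rw [mem_filter, mem_Icc] at hA
  obtain ⟨⟨hA1, hAN⟩, X, Y, hXY, hZ⟩ := hA
  have h := eqn hXY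
  have hA0 : (0 : ℤ) < A := by exact_mod_cast hA1
  have hz0 : (0 : ℤ) < (X.den : ℤ) ^ 3 := by have := X.den_pos; positivity
  have hne : ¬ (X.num = 0 ∧ Y.num = 0) := by
    rintro ⟨a, b⟩
    rw [a, b] at h
    have : (0 : ℤ) < A * (X.den : ℤ) ^ 3 := by positivity
    simp at h
    rcases h with h | h
    · omega
  have hg0 : 0 < Int.gcd X.num Y.num := Int.gcd_pos_iff.2 (by tauto)
  obtain ⟨g, hg⟩ : ∃ g : ℕ, g = Int.gcd X.num Y.num := ⟨_, rfl⟩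
  rw [← hg] at hg0
  obtain ⟨x, hx⟩ : (g : ℤ) ∣ X.num := by rw [hg]; exact Int.gcd_dvd_left ..
  obtain ⟨y, hy⟩ : (g : ℤ) ∣ Y.num := by rw [hg]; exact Int.gcd_dvd_right ..
  have hgz : (0 : ℤ) < g := by exact_mod_cast hg0
  have hxy : IsCoprime x y := by
    rw [Int.isCoprime_iff_gcd_eq_one]
    have e : Int.gcd X.num Y.num = g * Int.gcd x y := by
      rw [hx, hy, Int.gcd_mul_left, Int.natAbs_natCast]
    rw [← hg] at e
    exact Nat.eq_of_mul_eq_mul_left hg0 (by rw [mul_one]; exact e.symm)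
  -- `g` is prime to the denominator
  have hgd : IsCoprime ((g : ℤ) ^ 3) ((X.den : ℤ) ^ 3) := by
    have h1 : IsCoprime X.num (X.den : ℤ) := by
      rw [Int.isCoprime_iff_gcd_eq_one]
      have := X.reduced
      rwa [Int.gcd, Int.natAbs_natCast]
    rw [hx] at h1
    exact (h1.of_mul_left_left).pow
  have h2 : (g : ℤ) ^ 3 * (x ^ 3 + y ^ 3) = A * (X.den : ℤ) ^ 3 := by
    rw [← h, hx, hy]
    ring
  have h3 : (g : ℤ) ^ 3 ∣ A := by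
    refine hgd.dvd_of_dvd_mul_right ?_
    rw [← h2]
    exact dvd_mul_right _ _
  obtain ⟨B, hB⟩ : g ^ 3 ∣ A := by exact_mod_cast h3
  have hg3 : 0 < g ^ 3 := by positivity
  have hB1 : 1 ≤ B := by
    rcases Nat.eq_zero_or_pos B with h0 | h0
    · rw [h0] at hB; omega
    · exact h0
  have hBM : B ≤ N / g ^ 3 := by
    rw [Nat.le_div_iff_mul_le hg3, mul_comm, ← hB]
    exact hAN
  have hgN : g ≤ N := by
    have h4 : g ≤ g ^ 3 := Nat.le_self_pow (by norm_num) g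
    have h5 : g ^ 3 ≤ g ^ 3 * B := Nat.le_mul_of_pos_right _ hB1
    omega
  rw [mem_biUnion]
  refine ⟨g, mem_Icc.2 ⟨hg0, hgN⟩, mem_image.2 ⟨B, ?_, hB.symm⟩⟩
  rw [mem_filter, mem_Icc]
  refine ⟨⟨hB1, hBM⟩, hB1, hBM, x, y, X.den, hxy, X.den_pos, hZ, ?_⟩
  have h6 : (g : ℤ) ^ 3 * (x ^ 3 + y ^ 3) = (g : ℤ) ^ 3 * (B * (X.den : ℤ) ^ 3) := by
    rw [h2, hB]
    push_cast
    ring
  exact mul_left_cancel₀ (by positivity) h6

open Classical in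
theorem main (ε : ℝ) (hε : 0 < ε) : ∃ C : ℝ, 0 < C ∧ ∀ N Z : ℕ, 1 ≤ N → Z ≤ N →
    (((Icc 1 N).filter (fun A => Bad Z A)).card : ℝ) ≤
      C * (N : ℝ) ^ ε * ((N : ℝ) ^ (2 / 3 : ℝ) + (N : ℝ) ^ (1 / 3 : ℝ) * (Z : ℝ) ^ (2 / 3 : ℝ)) := by
  obtain ⟨C1, hC1, h1⟩ := bound_Sm (ε / 2) (by positivity)
  obtain ⟨C2, hC2, h2⟩ := log_le_pow (ε / 2) (by positivity)
  refine ⟨(2 * C1 + (2 * C1) ^ (2 / 3 : ℝ)) * C2, by positivity, fun N Z hN hZ => ?_⟩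
  have hN' : (1 : ℝ) ≤ N := by exact_mod_cast hN
  have hN0 : (0 : ℝ) < N := by linarith
  have hL := h2 N hN
  obtain ⟨E, hE⟩ : ∃ E : ℝ, E = (N : ℝ) ^ (ε / 2) := ⟨_, rfl⟩
  have hE1 : 1 ≤ E := by rw [hE]; exact Real.one_le_rpow hN' (by positivity)
  have hE0 : 0 < E := by linarith
  -- one `g`
  have hone : ∀ g ∈ Icc 1 N, (((Icc 1 (N / g ^ 3)).filter (fun B => Sm (N / g ^ 3) Z B)).card : ℝ) ≤
      ((2 * C1 * E) * (N : ℝ) ^ (2 / 3 : ℝ) +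
        (N : ℝ) ^ (1 / 3 : ℝ) * (2 * C1 * E * Z) ^ (2 / 3 : ℝ)) * (1 / g) := by
    intro g hg
    rw [mem_Icc] at hg
    obtain ⟨M, hM⟩ : ∃ M : ℕ, M = N / g ^ 3 := ⟨_, rfl⟩
    rw [← hM]
    have hg1 : (1 : ℝ) ≤ g := by exact_mod_cast hg.1
    have hg0 : (0 : ℝ) < g := by linarith
    have hMN : M ≤ N := by rw [hM]; exact Nat.div_le_self _ _
    have hMr : (M : ℝ) ≤ (N : ℝ) / g ^ 3 := by
      rw [hM]
      exact_mod_cast Nat.cast_div_le (m := N) (n := g ^ 3) (α := ℝ)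
    have b1 := h1 N M Z hN hMN hZ
    rw [← hE] at b1
    obtain ⟨c, hc⟩ : ∃ c : ℝ, c = (((Icc 1 M).filter (fun B => Sm M Z B)).card : ℝ) := ⟨_, rfl⟩
    rw [← hc] at b1 ⊢
    have hc0 : 0 ≤ c := by rw [hc]; positivity
    have b2 : c ≤ M := by
      rw [hc]
      have := card_filter_le (Icc 1 M) (fun B => Sm M Z B)
      rw [Nat.card_Icc, Nat.add_sub_cancel] at this
      exact_mod_cast this
    have m1 : (M : ℝ) ^ (2 / 3 : ℝ) ≤ (N : ℝ) ^ (2 / 3 : ℝ) * (1 / g) := by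
      calc (M : ℝ) ^ (2 / 3 : ℝ) ≤ ((N : ℝ) / g ^ 3) ^ (2 / 3 : ℝ) :=
            Real.rpow_le_rpow (by positivity) hMr (by norm_num)
        _ = (N : ℝ) ^ (2 / 3 : ℝ) / (g : ℝ) ^ 2 := by
            rw [Real.div_rpow hN0.le (by positivity), ← Real.rpow_natCast (g : ℝ) 3,
              ← Real.rpow_mul hg0.le, ← Real.rpow_natCast (g : ℝ) 2]
            norm_num
        _ ≤ (N : ℝ) ^ (2 / 3 : ℝ) / g := by
            refine div_le_div_of_nonneg_left (by positivity) hg0 ?_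
            nlinarith
        _ = _ := by ring
    have m2 : (M : ℝ) ^ (1 / 3 : ℝ) ≤ (N : ℝ) ^ (1 / 3 : ℝ) * (1 / g) := by
      calc (M : ℝ) ^ (1 / 3 : ℝ) ≤ ((N : ℝ) / g ^ 3) ^ (1 / 3 : ℝ) :=
            Real.rpow_le_rpow (by positivity) hMr (by norm_num)
        _ = (N : ℝ) ^ (1 / 3 : ℝ) / g := by
            rw [Real.div_rpow hN0.le (by positivity), ← Real.rpow_natCast (g : ℝ) 3,
              ← Real.rpow_mul hg0.le]
            norm_num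
        _ = _ := by ring
    rw [add_mul]
    have p1 : 0 ≤ (2 * C1 * E) * (N : ℝ) ^ (2 / 3 : ℝ) * (1 / g) := by positivity
    have p2 : 0 ≤ (N : ℝ) ^ (1 / 3 : ℝ) * (2 * C1 * E * Z) ^ (2 / 3 : ℝ) * (1 / g) := by positivity
    rcases le_or_gt c (2 * C1 * E * (M : ℝ) ^ (2 / 3 : ℝ)) with hle | hgt
    · have := mul_le_mul_of_nonneg_left m1 (by positivity : 0 ≤ 2 * C1 * E)
      nlinarith
    · have b3 : c ≤ 2 * C1 * E * Z := by nlinarith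
      have b4 : c = c ^ (1 / 3 : ℝ) * c ^ (2 / 3 : ℝ) := by
        rcases hc0.eq_or_lt with h0 | h0
        · rw [← h0, Real.zero_rpow (by norm_num), zero_mul]
        · rw [← Real.rpow_add h0]
          norm_num
      have b5 : c ^ (1 / 3 : ℝ) ≤ (N : ℝ) ^ (1 / 3 : ℝ) * (1 / g) :=
        (Real.rpow_le_rpow hc0 b2 (by norm_num)).trans m2
      have b6 : c ^ (2 / 3 : ℝ) ≤ (2 * C1 * E * Z) ^ (2 / 3 : ℝ) :=
        Real.rpow_le_rpow hc0 b3 (by norm_num)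
      have b7 : c ≤ (N : ℝ) ^ (1 / 3 : ℝ) * (1 / g) * (2 * C1 * E * Z) ^ (2 / 3 : ℝ) := by
        rw [b4]
        exact mul_le_mul b5 b6 (by positivity) (by positivity)
      linarith
  have hcard : (((Icc 1 N).filter (fun A => Bad Z A)).card : ℝ) ≤
      ∑ g ∈ Icc 1 N, (((Icc 1 (N / g ^ 3)).filter (fun B => Sm (N / g ^ 3) Z B)).card : ℝ) := by
    have h3 := (card_le_card (bad_sub N Z)).trans card_biUnion_le
    have h4 : (∑ g ∈ Icc 1 N, (((Icc 1 (N / g ^ 3)).filter (fun B => Sm (N / g ^ 3) Z B)).image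
      fun B => g ^ 3 * B).card) ≤
        ∑ g ∈ Icc 1 N, ((Icc 1 (N / g ^ 3)).filter (fun B => Sm (N / g ^ 3) Z B)).card :=
      sum_le_sum fun g _ => card_image_le
    exact_mod_cast h3.trans h4
  refine (hcard.trans (sum_le_sum hone)).trans ?_
  rw [← mul_sum]
  have h5 : (∑ g ∈ Icc 1 N, (1 : ℝ) / g) ≤ C2 * E := by
    rw [hE]
    exact (harm N).trans hL
  have e1 : (2 * C1 * E * Z) ^ (2 / 3 : ℝ) ≤ (2 * C1) ^ (2 / 3 : ℝ) * E * (Z : ℝ) ^ (2 / 3 : ℝ) := by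
    rw [Real.mul_rpow (by positivity) (by positivity), Real.mul_rpow (by positivity) (by positivity)]
    have : E ^ (2 / 3 : ℝ) ≤ E := by
      calc E ^ (2 / 3 : ℝ) ≤ E ^ (1 : ℝ) := Real.rpow_le_rpow_of_exponent_le hE1 (by norm_num)
        _ = E := Real.rpow_one E
    gcongr
  have e2 : (2 * C1 * E) * (N : ℝ) ^ (2 / 3 : ℝ) +
        (N : ℝ) ^ (1 / 3 : ℝ) * (2 * C1 * E * Z) ^ (2 / 3 : ℝ) ≤
      (2 * C1 + (2 * C1) ^ (2 / 3 : ℝ)) * E *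
        ((N : ℝ) ^ (2 / 3 : ℝ) + (N : ℝ) ^ (1 / 3 : ℝ) * (Z : ℝ) ^ (2 / 3 : ℝ)) := by
    have q1 : 0 ≤ (N : ℝ) ^ (2 / 3 : ℝ) := by positivity
    have q2 : 0 ≤ (N : ℝ) ^ (1 / 3 : ℝ) := by positivity
    have q3 : 0 ≤ (Z : ℝ) ^ (2 / 3 : ℝ) := by positivity
    have q4 : 0 ≤ (2 * C1) ^ (2 / 3 : ℝ) := by positivity
    have q5 := mul_le_mul_of_nonneg_left e1 q2
    have q6 : 0 ≤ 2 * C1 * E * ((N : ℝ) ^ (1 / 3 : ℝ) * (Z : ℝ) ^ (2 / 3 : ℝ)) := by positivity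
    have q7 : 0 ≤ (2 * C1) ^ (2 / 3 : ℝ) * E * (N : ℝ) ^ (2 / 3 : ℝ) := by positivity
    nlinarith
  refine (mul_le_mul e2 h5 (by positivity) (by positivity)).trans (le_of_eq ?_)
  have e3 : (N : ℝ) ^ ε = E * E := by
    rw [hE, ← Real.rpow_add hN0]
    congr 1
    ring
  rw [e3]
  ring

end Pool.Agent.X236.SC
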