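import Pool.Agent.X236.SC.Roots

/-!
# The number of cubic twists with a small primitive point
-/

set_option autoImplicit false

namespace Pool.Agent.X236.SC

open Finset

/-- the point `(x, y, z)` of the twist by `A` has the code `(z, l, j, k)` -/
def Cod (A : ℕ) (c : Σ _ : ℕ, ℕ × ℕ × ℕ) : Prop := ∃ x y : ℤ, IsCoprime x y ∧ 0 < x ∧ 0 < x + y ∧
  x ^ 3 + y ^ 3 = A * (c.1 : ℤ) ^ 3 ∧ ((c.1 : ℤ) ^ 3 ∣ x - c.2.1 * y) ∧
  (2 : ℤ) ^ c.2.2.1 ≤ x ∧ x < 2 ^ (c.2.2.1 + 1) ∧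
  (c.2.2.2 : ℤ) * (x * (c.1 : ℤ) ^ 3) ≤ 4 * (x + y) * (2 ^ c.2.2.1) ^ 2 ∧
  4 * (x + y) * (2 ^ c.2.2.1) ^ 2 < ((c.2.2.2 : ℤ) + 1) * (x * (c.1 : ℤ) ^ 3)

lemma coprime_par {x1 y1 x2 y2 : ℤ} (h1 : IsCoprime x1 y1) (h2 : IsCoprime x2 y2) (p1 : 0 < x1)
    (p2 : 0 < x2) (h : x1 * y2 = x2 * y1) : x1 = x2 ∧ y1 = y2 := by
  have d1 : x1 ∣ x2 := h1.dvd_of_dvd_mul_right (by rw [← h]; exact dvd_mul_right _ _)
  have d2 : x2 ∣ x1 := h2.dvd_of_dvd_mul_right (by rw [h]; exact dvd_mul_right _ _)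
  have e : x1 = x2 := Int.dvd_antisymm p1.le p2.le d1 d2
  refine ⟨e, ?_⟩
  rw [e] at h
  exact (mul_left_cancel₀ p2.ne' h).symm

lemma half {x1 s1 x2 s2 k t X : ℤ} (p1 : 0 < x1) (p2 : 0 < x2) (hX : 0 < X) (ht : 0 < t)
    (b1 : x1 < 2 * X) (b2 : x2 < 2 * X) (h1 : k * (x1 * t) ≤ 4 * s1 * X ^ 2)
    (h2 : 4 * s2 * X ^ 2 < (k + 1) * (x2 * t)) : x1 * s2 - x2 * s1 < t := by
  have e1 : 4 * X ^ 2 * (x1 * s2 - x2 * s1) < x1 * x2 * t := by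
    have a1 := mul_lt_mul_of_pos_left h2 p1
    have a2 := mul_le_mul_of_nonneg_left h1 p2.le
    nlinarith
  have e2 : x1 * x2 < 4 * X ^ 2 := by nlinarith
  have e3 : x1 * x2 * t ≤ 4 * X ^ 2 * t := mul_le_mul_of_nonneg_right e2.le ht.le
  have e4 : 4 * X ^ 2 * (x1 * s2 - x2 * s1) < 4 * X ^ 2 * t := lt_of_lt_of_le e1 e3
  exact lt_of_mul_lt_mul_left e4 (by positivity)

lemma cod_inj {A B : ℕ} {c : Σ _ : ℕ, ℕ × ℕ × ℕ} (hc : 0 < c.1) (hA : Cod A c) (hB : Cod B c) :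
    A = B := by
  obtain ⟨x1, y1, c1, p1, q1, e1, d1, l1, u1, f1, g1⟩ := hA
  obtain ⟨x2, y2, c2, p2, q2, e2, d2, l2, u2, f2, g2⟩ := hB
  have hz : (0 : ℤ) < (c.1 : ℤ) ^ 3 := by positivity
  have hX : (0 : ℤ) < 2 ^ c.2.2.1 := by positivity
  rw [pow_succ'] at u1 u2
  have r1 := half p1 p2 hX hz u1 u2 f1 g2
  have r2 := half p2 p1 hX hz u2 u1 f2 g1
  have hD : (c.1 : ℤ) ^ 3 ∣ x1 * y2 - x2 * y1 := by
    have e : x1 * y2 - x2 * y1 = y2 * (x1 - c.2.1 * y1) - y1 * (x2 - c.2.1 * y2) := by ring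
    rw [e]
    exact dvd_sub (dvd_mul_of_dvd_right d1 _) (dvd_mul_of_dvd_right d2 _)
  have e3 : x1 * (x2 + y2) - x2 * (x1 + y1) = x1 * y2 - x2 * y1 := by ring
  have e4 : x2 * (x1 + y1) - x1 * (x2 + y2) = -(x1 * y2 - x2 * y1) := by ring
  rw [e3] at r1
  rw [e4] at r2
  have h0 : x1 * y2 - x2 * y1 = 0 := by
    refine Int.eq_zero_of_abs_lt_dvd hD ?_
    rw [abs_lt]
    constructor <;> linarith
  obtain ⟨ex, ey⟩ := coprime_par c1 c2 p1 p2 (by linarith)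
  rw [ex, ey, e2] at e1
  have e5 : (B : ℤ) = A := mul_right_cancel₀ hz.ne' e1
  exact_mod_cast e5.symm

/-- the twists `A ≤ M` with a primitive point of denominator at most `Z` -/
def Sm (M Z A : ℕ) : Prop := 1 ≤ A ∧ A ≤ M ∧ ∃ (x y : ℤ) (z : ℕ), IsCoprime x y ∧ 1 ≤ z ∧ z ≤ Z ∧
  x ^ 3 + y ^ 3 = A * (z : ℤ) ^ 3

lemma exists_root {x y : ℤ} {z A : ℕ} (hc : IsCoprime x y) (hz : 1 ≤ z)
    (h : x ^ 3 + y ^ 3 = A * (z : ℤ) ^ 3) : ∃ l ∈ R (z ^ 3), ((z : ℤ) ^ 3 ∣ x - l * y) := by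
  have hz3 : (0 : ℤ) < (z : ℤ) ^ 3 := by positivity
  have hyz : IsCoprime y ((z : ℤ) ^ 3) := by
    have h1 : IsCoprime y (x ^ 3 + y ^ 3) := by
      have : IsCoprime y (x ^ 3) := (hc.symm).pow_right
      have e : x ^ 3 + y ^ 3 = x ^ 3 + y * y ^ 2 := by ring
      rw [e]
      exact this.add_mul_left_right _
    rw [h] at h1
    exact h1.of_mul_right_right
  obtain ⟨w, v, hw⟩ := hyz
  have hl0 : 0 ≤ (x * w) % (z : ℤ) ^ 3 := Int.emod_nonneg _ hz3.ne'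
  have hl1 : (x * w) % (z : ℤ) ^ 3 < (z : ℤ) ^ 3 := Int.emod_lt_of_pos _ hz3
  obtain ⟨l, hl⟩ := Int.eq_ofNat_of_zero_le hl0
  have hd : (z : ℤ) ^ 3 ∣ x * w - l := by
    rw [← hl]
    exact Int.dvd_self_sub_emod
  have hd2 : (z : ℤ) ^ 3 ∣ x - l * y := by
    have e : x - l * y = y * (x * w - l) + x * v * (z : ℤ) ^ 3 := by
      linear_combination (-x) * hw
    rw [e]
    exact dvd_add (dvd_mul_of_dvd_right hd _) (dvd_mul_left _ _)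
  refine ⟨l, ?_, hd2⟩
  rw [mem_R]
  constructor
  · have : (l : ℤ) < (z : ℤ) ^ 3 := by rw [← hl]; exact hl1
    exact_mod_cast this
  · have h2 : (z : ℤ) ^ 3 ∣ ((l : ℤ) ^ 3 + 1) * y ^ 3 := by
      have e : ((l : ℤ) ^ 3 + 1) * y ^ 3 = A * (z : ℤ) ^ 3 -
        (x - l * y) * (x ^ 2 + x * (l * y) + (l * y) ^ 2) := by
        linear_combination h
      rw [e]
      exact dvd_sub (dvd_mul_left _ _) (dvd_mul_of_dvd_left hd2 _)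
    have h3 : (z : ℤ) ^ 3 ∣ (l : ℤ) ^ 3 + 1 := by
      have : IsCoprime ((z : ℤ) ^ 3) (y ^ 3) := by
        have h4 : IsCoprime y ((z : ℤ) ^ 3) := ⟨w, v, hw⟩
        exact h4.symm.pow_right
      exact this.dvd_of_dvd_mul_right h2
    exact_mod_cast h3

/-- the bound for the last coordinate of the code -/
noncomputable def K (M z : ℕ) : ℕ := ⌊7 * (M : ℝ) ^ (2 / 3 : ℝ) / z⌋₊

lemma k_le {M z A : ℕ} {x s k X : ℤ} (hz : 1 ≤ z) (hA : A ≤ M) (hx : 0 < x) (hs : 0 < s)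
    (hs2 : s ≤ 2 * x) (hX0 : 0 < X) (hX : X ≤ x) (hk : 0 ≤ k)
    (hF : 3 * (s * x ^ 2) ≤ 4 * (A * (z : ℤ) ^ 3)) (h1 : k * (x * (z : ℤ) ^ 3) ≤ 4 * s * X ^ 2) :
    k ≤ K M z := by
  have hz' : (0 : ℝ) < z := by exact_mod_cast hz
  have hzz : (0 : ℤ) < (z : ℤ) := by exact_mod_cast hz
  -- `k z³ ≤ 4 s x`
  have a1 : k * (z : ℤ) ^ 3 ≤ 4 * (s * x) := by
    have e1 : 4 * s * X ^ 2 ≤ 4 * s * x ^ 2 := by
      have : X ^ 2 ≤ x ^ 2 := pow_le_pow_left₀ hX0.le hX 2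
      nlinarith
    have e2 : x * (k * (z : ℤ) ^ 3) ≤ x * (4 * (s * x)) := by nlinarith
    exact le_of_mul_le_mul_left e2 hx
  -- `(s x)³ ≤ 2 s² x⁴`
  have a2 : (s * x) ^ 3 ≤ 2 * (s * x ^ 2) ^ 2 := by
    have : s * (s ^ 2 * x ^ 3) ≤ 2 * x * (s ^ 2 * x ^ 3) := mul_le_mul_of_nonneg_right hs2 (by positivity)
    nlinarith
  have a3 : 9 * (s * x ^ 2) ^ 2 ≤ 16 * ((M : ℤ) ^ 2 * (z : ℤ) ^ 6) := by
    have hAM : (A : ℤ) ≤ M := by exact_mod_cast hA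
    have h2 : 3 * (s * x ^ 2) ≤ 4 * (M * (z : ℤ) ^ 3) :=
      hF.trans (by nlinarith [pow_pos hzz 3])
    have h3 := pow_le_pow_left₀ (by positivity) h2 2
    nlinarith
  have a4 : k ^ 3 * (z : ℤ) ^ 9 ≤ 64 * (s * x) ^ 3 := by
    have h3 := pow_le_pow_left₀ (by positivity) a1 3
    nlinarith
  have a5 : k ^ 3 * (z : ℤ) ^ 9 ≤ 343 * (M : ℤ) ^ 2 * (z : ℤ) ^ 6 := by
    have : 0 ≤ (M : ℤ) ^ 2 * (z : ℤ) ^ 6 := by positivity
    nlinarith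
  have a6 : k ^ 3 * (z : ℤ) ^ 3 ≤ 343 * (M : ℤ) ^ 2 := by
    have h6 : (0 : ℤ) < (z : ℤ) ^ 6 := by positivity
    have : (z : ℤ) ^ 6 * (k ^ 3 * (z : ℤ) ^ 3) ≤ (z : ℤ) ^ 6 * (343 * (M : ℤ) ^ 2) := by
      calc (z : ℤ) ^ 6 * (k ^ 3 * (z : ℤ) ^ 3) = k ^ 3 * (z : ℤ) ^ 9 := by ring
        _ ≤ _ := a5
        _ = _ := by ring
    exact le_of_mul_le_mul_left this h6
  have hkn : (k.toNat : ℤ) = k := Int.toNat_of_nonneg hk
  rw [← hkn] at a6 ⊢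
  have a7 : (k.toNat : ℝ) ^ 3 * (z : ℝ) ^ 3 ≤ 343 * (M : ℝ) ^ 2 := by exact_mod_cast a6
  have a8 : (k.toNat : ℝ) * z ≤ 7 * (M : ℝ) ^ (2 / 3 : ℝ) := by
    have h8 : ((k.toNat : ℝ) * z) ^ 3 ≤ (7 * (M : ℝ) ^ (2 / 3 : ℝ)) ^ 3 := by
      rw [mul_pow, mul_pow, ← Real.rpow_natCast ((M : ℝ) ^ (2 / 3 : ℝ)) 3,
        ← Real.rpow_mul (by positivity)]
      norm_num
      linarith
    exact le_of_pow_le_pow_left₀ (by norm_num) (by positivity) h8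
  have a9 : k.toNat ≤ K M z := by
    unfold K
    refine Nat.le_floor ?_
    rw [le_div_iff₀ hz']
    exact a8
  exact_mod_cast a9

/-- the codes -/
noncomputable def T (M Z : ℕ) : Finset (Σ _ : ℕ, ℕ × ℕ × ℕ) :=
  (Icc 1 Z).sigma fun z => R (z ^ 3) ×ˢ (range (Nat.log 2 (2 * M * Z ^ 3) + 1) ×ˢ range (K M z + 1))

lemma card_T (M Z : ℕ) : (T M Z).card =
    ∑ z ∈ Icc 1 Z, (R (z ^ 3)).card * ((Nat.log 2 (2 * M * Z ^ 3) + 1) * (K M z + 1)) := by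
  unfold T
  rw [card_sigma]
  refine sum_congr rfl fun z _ => ?_
  rw [card_product, card_product, card_range, card_range]

lemma exists_code {M Z A : ℕ} (h : Sm M Z A) : ∃ c ∈ T M Z, Cod A c := by
  obtain ⟨hA1, hAM, x0, y0, z, hc0, hz1, hzZ, h0⟩ := h
  have hz3 : (0 : ℤ) < (z : ℤ) ^ 3 := by positivity
  have hA0 : (0 : ℤ) < A := by exact_mod_cast hA1
  obtain ⟨x, y, hc, hxy, h⟩ : ∃ x y : ℤ, IsCoprime x y ∧ y ≤ x ∧ x ^ 3 + y ^ 3 = A * (z : ℤ) ^ 3 := by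
    rcases le_total y0 x0 with hle | hle
    · exact ⟨x0, y0, hc0, hle, h0⟩
    · exact ⟨y0, x0, hc0.symm, hle, by rw [← h0]; ring⟩
  have hpos : 0 < (x + y) * (x ^ 2 - x * y + y ^ 2) := by
    have : (x + y) * (x ^ 2 - x * y + y ^ 2) = A * (z : ℤ) ^ 3 := by rw [← h]; ring
    rw [this]
    positivity
  have hq : 0 ≤ x ^ 2 - x * y + y ^ 2 := by nlinarith [sq_nonneg (x - y), sq_nonneg x, sq_nonneg y, sq_nonneg (x + y)]
  have hs : 0 < x + y := by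
    by_contra hcon
    nlinarith [mul_nonneg (neg_nonneg.2 (not_lt.1 hcon)) hq]
  have hx : 0 < x := by linarith
  obtain ⟨l, hl, hld⟩ := exists_root hc hz1 h
  have hxn : (x.toNat : ℤ) = x := Int.toNat_of_nonneg hx.le
  have hxn0 : x.toNat ≠ 0 := by omega
  have hj1 : (2 : ℤ) ^ (Nat.log 2 x.toNat) ≤ x := by
    have := Nat.pow_log_le_self 2 hxn0
    have h2 : ((2 ^ Nat.log 2 x.toNat : ℕ) : ℤ) ≤ x.toNat := by exact_mod_cast this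
    rw [hxn] at h2
    push_cast at h2
    exact h2
  have hj2 : x < (2 : ℤ) ^ (Nat.log 2 x.toNat + 1) := by
    have := Nat.lt_pow_succ_log_self (b := 2) (by norm_num) x.toNat
    have h2 : (x.toNat : ℤ) < ((2 ^ (Nat.log 2 x.toNat).succ : ℕ) : ℤ) := by exact_mod_cast this
    rw [hxn] at h2
    push_cast at h2
    exact h2
  have hF : 3 * ((x + y) * x ^ 2) ≤ 4 * (A * (z : ℤ) ^ 3) := by
    rw [← h]
    nlinarith [mul_nonneg hs.le (sq_nonneg (x - 2 * y))]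
  -- the size of `x`
  have hx2 : x.toNat ≤ 2 * M * Z ^ 3 := by
    have h1 : x ^ 2 ≤ 2 * (M * (Z : ℤ) ^ 3) := by
      have h2 : 3 * x ^ 2 ≤ 3 * ((x + y) * x ^ 2) := by nlinarith [sq_nonneg x]
      have h3 : (A : ℤ) * (z : ℤ) ^ 3 ≤ M * (Z : ℤ) ^ 3 := by
        have a : (A : ℤ) ≤ M := by exact_mod_cast hAM
        have b : (z : ℤ) ^ 3 ≤ (Z : ℤ) ^ 3 := by
          have : (z : ℤ) ≤ Z := by exact_mod_cast hzZ
          exact pow_le_pow_left₀ (by positivity) this 3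
        exact mul_le_mul a b hz3.le (by positivity)
      have h4 : 0 ≤ (M : ℤ) * (Z : ℤ) ^ 3 := by positivity
      nlinarith
    have h5 : x ≤ x ^ 2 := by nlinarith
    have h6 : (x.toNat : ℤ) ≤ ((2 * M * Z ^ 3 : ℕ) : ℤ) := by
      rw [hxn]
      push_cast
      linarith
    exact_mod_cast h6
  have hj3 : Nat.log 2 x.toNat < Nat.log 2 (2 * M * Z ^ 3) + 1 :=
    Nat.lt_succ_of_le (Nat.log_mono_right hx2)
  -- the last coordinate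
  have hden : 0 < x * (z : ℤ) ^ 3 := by positivity
  have hnum : 0 ≤ 4 * (x + y) * (2 ^ Nat.log 2 x.toNat) ^ 2 := by positivity
  have hk0 : 0 ≤ 4 * (x + y) * (2 ^ Nat.log 2 x.toNat) ^ 2 / (x * (z : ℤ) ^ 3) :=
    Int.ediv_nonneg hnum hden.le
  obtain ⟨k, hk⟩ := Int.eq_ofNat_of_zero_le hk0
  have hk1 : (k : ℤ) * (x * (z : ℤ) ^ 3) ≤ 4 * (x + y) * (2 ^ Nat.log 2 x.toNat) ^ 2 := by
    rw [← hk]
    exact Int.ediv_mul_le _ hden.ne'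
  have hk2 : 4 * (x + y) * (2 ^ Nat.log 2 x.toNat) ^ 2 < ((k : ℤ) + 1) * (x * (z : ℤ) ^ 3) := by
    rw [← hk]
    exact Int.lt_ediv_add_one_mul_self _ hden
  have hkK : (k : ℤ) ≤ K M z :=
    k_le hz1 hAM hx hs (by linarith) (by positivity) hj1 (by positivity) hF hk1
  refine ⟨⟨z, l, Nat.log 2 x.toNat, k⟩, ?_, x, y, hc, hx, hs, h, hld, hj1, hj2, hk1, hk2⟩
  unfold T
  rw [mem_sigma, mem_Icc, mem_product, mem_product, mem_range, mem_range]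
  refine ⟨⟨hz1, hzZ⟩, hl, hj3, ?_⟩
  have : k ≤ K M z := by exact_mod_cast hkK
  show k < K M z + 1
  omega

open Classical in
theorem card_Sm (M Z : ℕ) : ((Icc 1 M).filter (fun A => Sm M Z A)).card ≤
    ∑ z ∈ Icc 1 Z, (R (z ^ 3)).card * ((Nat.log 2 (2 * M * Z ^ 3) + 1) * (K M z + 1)) := by
  rw [← card_T]
  refine card_le_card_of_forall_subsingleton Cod ?_ ?_
  · intro A hA
    rw [mem_filter] at hA
    exact exists_code hA.2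
  · intro c hc A hA B hB
    have hc1 : 0 < c.1 := by
      unfold T at hc
      rw [mem_sigma, mem_Icc] at hc
      exact hc.1.1
    exact cod_inj hc1 hA.2 hB.2

end Pool.Agent.X236.SC
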