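import Mathlib

/-!
# The number of cube roots of `-1` modulo a cube
-/

set_option autoImplicit false

namespace Pool.Agent.X236.SC

open Finset

/-- the cube roots of `-1` modulo `n` -/
def R (n : ℕ) : Finset ℕ := (range n).filter (fun l => n ∣ l ^ 3 + 1)

lemma mem_R {n l : ℕ} : l ∈ R n ↔ l < n ∧ n ∣ l ^ 3 + 1 := by
  unfold R
  rw [mem_filter, mem_range]

lemma dvd_mod {m l : ℕ} (h : m ∣ l ^ 3 + 1) : m ∣ (l % m) ^ 3 + 1 := by
  have h1 : (l % m) ^ 3 + 1 ≡ l ^ 3 + 1 [MOD m] := ((Nat.mod_modEq l m).pow 3).add_right 1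
  exact (h1.dvd_iff (dvd_refl m)).2 h

lemma R_mul {m n : ℕ} (hm : 0 < m) (hn : 0 < n) (h : m.Coprime n) :
    (R (m * n)).card ≤ (R m).card * (R n).card := by
  rw [← card_product]
  refine card_le_card_of_injOn (fun l => (l % m, l % n)) ?_ ?_
  · intro l hl
    rw [mem_coe, mem_R] at hl
    rw [mem_coe, mem_product, mem_R, mem_R]
    exact ⟨⟨Nat.mod_lt _ hm, dvd_mod (dvd_trans (dvd_mul_right m n) hl.2)⟩,
      Nat.mod_lt _ hn, dvd_mod (dvd_trans (dvd_mul_left n m) hl.2)⟩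
  · intro a ha b hb hab
    rw [mem_coe, mem_R] at ha hb
    have h1 : (a % m, a % n) = (b % m, b % n) := hab
    rw [Prod.mk.injEq] at h1
    have h2 : a ≡ b [MOD m * n] := (Nat.modEq_and_modEq_iff_modEq_mul h).1 ⟨h1.1, h1.2⟩
    have h3 := h2
    unfold Nat.ModEq at h3
    rwa [Nat.mod_eq_of_lt ha.1, Nat.mod_eq_of_lt hb.1] at h3

lemma tors (p k : ℕ) (hp : p.Prime) (hk : 0 < k) :
    (haveI : NeZero (p ^ k) := ⟨(pow_pos hp.pos k).ne'⟩
     (univ.filter (fun u : (ZMod (p ^ k))ˣ => u ^ 3 = 1)).card) ≤ 3 := by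
  haveI : NeZero (p ^ k) := ⟨(pow_pos hp.pos k).ne'⟩
  by_cases h2 : p = 2
  · subst h2
    have h : ∀ u ∈ univ.filter (fun u : (ZMod (2 ^ k))ˣ => u ^ 3 = 1), u = 1 := by
      intro u hu
      rw [mem_filter] at hu
      have h3 : orderOf u ∣ 3 := orderOf_dvd_of_pow_eq_one hu.2
      have h4 : orderOf u ∣ 2 ^ (k - 1) := by
        have h5 := orderOf_dvd_card (x := u)
        rw [ZMod.card_units_eq_totient, Nat.totient_prime_pow Nat.prime_two hk] at h5
        simpa using h5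
      have h6 : orderOf u ∣ 1 := by
        have : Nat.Coprime 3 (2 ^ (k - 1)) := Nat.Coprime.pow_right _ (by norm_num)
        rw [← this]
        exact Nat.dvd_gcd h3 h4
      exact orderOf_eq_one_iff.1 (Nat.dvd_one.1 h6)
    refine le_trans (card_le_one.2 fun a ha b hb => ?_) (by norm_num)
    rw [h a ha, h b hb]
  · haveI := ZMod.isCyclic_units_of_prime_pow p hp h2 k
    exact IsCyclic.card_pow_eq_one_le (by norm_num)

lemma R_pp (p k : ℕ) (hp : p.Prime) (hk : 0 < k) : (R (p ^ k)).card ≤ 3 := by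
  haveI : NeZero (p ^ k) := ⟨(pow_pos hp.pos k).ne'⟩
  have hcop : ∀ l ∈ R (p ^ k), l.Coprime (p ^ k) := by
    intro l hl
    rw [mem_R] at hl
    refine Nat.Coprime.pow_right k ?_
    rw [Nat.coprime_comm, hp.coprime_iff_not_dvd]
    intro h
    have h1 : p ∣ l ^ 3 + 1 := dvd_trans (dvd_pow_self p hk.ne') hl.2
    have h2 : p ∣ l ^ 3 := dvd_pow h (by norm_num)
    have h3 : p ∣ 1 := (Nat.dvd_add_right h2).1 h1
    exact hp.one_lt.ne' (Nat.dvd_one.1 h3)
  rcases (R (p ^ k)).eq_empty_or_nonempty with h0 | ⟨l0, hl0⟩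
  · rw [h0]; simp
  refine le_trans ?_ (tors p k hp hk)
  have key : ∀ l ∈ R (p ^ k), ((l : ℕ) : ZMod (p ^ k)) ^ 3 = -1 := by
    intro l hl
    rw [mem_R] at hl
    have h1 := (ZMod.natCast_eq_zero_iff (l ^ 3 + 1) (p ^ k)).2 hl.2
    push_cast at h1
    linear_combination h1
  let u : ℕ → (ZMod (p ^ k))ˣ := fun l =>
    if h : l.Coprime (p ^ k) then ZMod.unitOfCoprime l h else 1
  have hu : ∀ l ∈ R (p ^ k), ((u l : (ZMod (p ^ k))ˣ) : ZMod (p ^ k)) = (l : ZMod (p ^ k)) := by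
    intro l hl
    have : u l = ZMod.unitOfCoprime l (hcop l hl) := dif_pos (hcop l hl)
    rw [this, ZMod.coe_unitOfCoprime]
  refine card_le_card_of_injOn (fun l => u l * (u l0)⁻¹) ?_ ?_
  · intro l hl
    rw [mem_coe, mem_filter]
    refine ⟨mem_univ _, ?_⟩
    have h1 : (u l) ^ 3 = (u l0) ^ 3 := by
      ext
      push_cast
      rw [hu l hl, hu l0 hl0, key l hl, key l0 hl0]
    show (u l * (u l0)⁻¹) ^ 3 = 1
    rw [mul_pow, h1, ← mul_pow, mul_inv_cancel, one_pow]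
  · intro a ha b hb hab
    have h1 : u a * (u l0)⁻¹ = u b * (u l0)⁻¹ := hab
    have h2 : u a = u b := mul_right_cancel h1
    have h3 : ((a : ℕ) : ZMod (p ^ k)) = ((b : ℕ) : ZMod (p ^ k)) := by
      rw [← hu a ha, ← hu b hb, h2]
    rw [ZMod.natCast_eq_natCast_iff] at h3
    rw [mem_coe, mem_R] at ha hb
    unfold Nat.ModEq at h3
    rwa [Nat.mod_eq_of_lt ha.1, Nat.mod_eq_of_lt hb.1] at h3

theorem R_cube (n : ℕ) : (R (n ^ 3)).card ≤ n.divisors.card ^ 2 := by
  induction n using Nat.recOnPosPrimePosCoprime with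
  | prime_pow p k hp hk =>
    rw [← pow_mul, Nat.divisors_prime_pow hp, card_map, card_range]
    refine le_trans (R_pp p (k * 3) hp (by omega)) ?_
    nlinarith
  | zero => simp [R]
  | one =>
    refine le_trans (card_filter_le _ _) ?_
    simp
  | coprime a b ha hb hab iha ihb =>
    rw [mul_pow, hab.card_divisors_mul, mul_pow]
    exact (R_mul (by positivity) (by positivity) (hab.pow 3 3)).trans (Nat.mul_le_mul iha ihb)

end Pool.Agent.X236.SC
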